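import Mathlib
import Pool.Agent.Y826.Z.Defs2

/-! The Cauchy-Schwarz step and elementary estimates. -/

open Finset Filter

namespace Pool.Agent.Y535.ZP

open Pool.Agent.Y826.Z

lemma cs {ι : Type*} (s : Finset ι) (t : Finset ℕ) (γ : ι → ℂ) (B : ℕ → ℝ) (P : ι → ℕ → ℂ)
    (g b : ℝ) (F : ι → ι → ℝ) (hg : 0 ≤ g) (hb : 0 ≤ b) (hγ : ∀ x ∈ s, ‖γ x‖ ≤ g)
    (hB : ∀ n ∈ t, |B n| ≤ b) (hF0 : ∀ x ∈ s, ∀ y ∈ s, 0 ≤ F x y)
    (hF : ∀ x ∈ s, ∀ y ∈ s, γ x ≠ 0 → γ y ≠ 0 →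
      ‖∑ n ∈ t, P x n * (starRingEnd ℂ) (P y n)‖ ≤ F x y) :
    ‖∑ x ∈ s, γ x * ∑ n ∈ t, (B n : ℂ) * P x n‖ ≤
      b * g * Real.sqrt (t.card * ∑ x ∈ s, ∑ y ∈ s, F x y) := by
  set G : ℕ → ℂ := fun n => ∑ x ∈ s, γ x * P x n with hG
  have h1 : ∑ x ∈ s, γ x * ∑ n ∈ t, (B n : ℂ) * P x n = ∑ n ∈ t, (B n : ℂ) * G n := by
    simp only [hG, mul_sum]
    rw [sum_comm]
    apply sum_congr rfl; intro n _
    apply sum_congr rfl; intro x _
    ring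
  have h2 : ‖∑ n ∈ t, (B n : ℂ) * G n‖ ≤ b * ∑ n ∈ t, ‖G n‖ := by
    refine (norm_sum_le _ _).trans ?_
    rw [mul_sum]
    apply sum_le_sum
    intro n hn
    rw [norm_mul, Complex.norm_real, Real.norm_eq_abs]
    exact mul_le_mul_of_nonneg_right (hB n hn) (norm_nonneg _)
  have h3 : (∑ n ∈ t, ‖G n‖) ^ 2 ≤ t.card * ∑ n ∈ t, ‖G n‖ ^ 2 := sq_sum_le_card_mul_sum_sq
  have h4 : ∑ n ∈ t, ‖G n‖ ^ 2 ≤ g ^ 2 * ∑ x ∈ s, ∑ y ∈ s, F x y := by
    have e1 : ((∑ n ∈ t, ‖G n‖ ^ 2 : ℝ) : ℂ) =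
        ∑ x ∈ s, ∑ y ∈ s, γ x * (starRingEnd ℂ) (γ y) *
          ∑ n ∈ t, P x n * (starRingEnd ℂ) (P y n) := by
      have e2 : ∀ n, ((‖G n‖ ^ 2 : ℝ) : ℂ) = ∑ x ∈ s, ∑ y ∈ s,
          γ x * (starRingEnd ℂ) (γ y) * (P x n * (starRingEnd ℂ) (P y n)) := by
        intro n
        rw [Complex.ofReal_pow, ← Complex.mul_conj', hG]
        simp only [map_sum, map_mul]
        rw [sum_mul_sum]
        apply sum_congr rfl; intro x _
        apply sum_congr rfl; intro y _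
        ring
      rw [Complex.ofReal_sum]
      rw [sum_congr rfl (fun n _ => e2 n), sum_comm]
      apply sum_congr rfl; intro x _
      rw [sum_comm]
      apply sum_congr rfl; intro y _
      rw [mul_sum]
    have e3 : ‖((∑ n ∈ t, ‖G n‖ ^ 2 : ℝ) : ℂ)‖ ≤ g ^ 2 * ∑ x ∈ s, ∑ y ∈ s, F x y := by
      rw [e1, mul_sum]
      refine (norm_sum_le _ _).trans (sum_le_sum ?_)
      intro x hx
      rw [mul_sum]
      refine (norm_sum_le _ _).trans (sum_le_sum ?_)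
      intro y hy
      by_cases gx : γ x = 0
      · rw [gx]; simp only [zero_mul, norm_zero]
        exact mul_nonneg (sq_nonneg _) (hF0 x hx y hy)
      by_cases gy : γ y = 0
      · rw [gy]; simp only [map_zero, mul_zero, zero_mul, norm_zero]
        exact mul_nonneg (sq_nonneg _) (hF0 x hx y hy)
      rw [norm_mul, norm_mul, RCLike.norm_conj, sq]
      apply mul_le_mul
      · exact mul_le_mul (hγ x hx) (hγ y hy) (norm_nonneg _) hg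
      · exact hF x hx y hy gx gy
      · exact norm_nonneg _
      · positivity
    rw [Complex.norm_real, Real.norm_eq_abs] at e3
    exact (le_abs_self _).trans e3
  rw [h1]
  refine h2.trans ?_
  rw [mul_assoc]
  apply mul_le_mul_of_nonneg_left _ hb
  have h5 : ∑ n ∈ t, ‖G n‖ ≤ Real.sqrt (g ^ 2 * (t.card * ∑ x ∈ s, ∑ y ∈ s, F x y)) := by
    apply Real.le_sqrt_of_sq_le
    refine h3.trans ?_
    calc (t.card : ℝ) * ∑ n ∈ t, ‖G n‖ ^ 2 ≤ t.card * (g ^ 2 * ∑ x ∈ s, ∑ y ∈ s, F x y) := by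
          apply mul_le_mul_of_nonneg_left h4; positivity
      _ = g ^ 2 * (t.card * ∑ x ∈ s, ∑ y ∈ s, F x y) := by ring
  rw [Real.sqrt_mul (sq_nonneg _), Real.sqrt_sq hg] at h5
  exact h5

lemma Bd_sq (N D d g : ℝ) (hN : 0 ≤ N) (hD : 0 ≤ D) (hd : 0 < d) (hg : 0 ≤ g) :
    N * D + N * Real.sqrt g * (Real.sqrt d + N / Real.sqrt d) ≤ (Bd N D d g) ^ 2 := by
  unfold Bd
  set s := d ^ (1 / 4 : ℝ) with hs
  set w := g ^ (1 / 4 : ℝ) with hw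
  have hs0 : 0 < s := Real.rpow_pos_of_pos hd _
  have hw0 : 0 ≤ w := Real.rpow_nonneg hg _
  have hs2 : Real.sqrt d = s ^ 2 := by
    rw [hs, ← Real.rpow_natCast, ← Real.rpow_mul hd.le, Real.sqrt_eq_rpow]; norm_num
  have hw2 : Real.sqrt g = w ^ 2 := by
    rw [hw, ← Real.rpow_natCast, ← Real.rpow_mul hg, Real.sqrt_eq_rpow]; norm_num
  set n := Real.sqrt N with hn
  have hn0 : 0 ≤ n := Real.sqrt_nonneg _
  have hn2 : N = n ^ 2 := (Real.sq_sqrt hN).symm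
  set z := Real.sqrt (N * D) with hz
  have hz0 : 0 ≤ z := Real.sqrt_nonneg _
  have hz2 : N * D = z ^ 2 := (Real.sq_sqrt (mul_nonneg hN hD)).symm
  rw [hz2, hs2, hw2]
  have e1 : N * w ^ 2 * (s ^ 2 + N / s ^ 2) = (w * n) ^ 2 * (s ^ 2 + (n / s) ^ 2) := by
    rw [div_pow, ← hn2]
    rw [mul_pow, ← hn2]; ring
  rw [e1]
  have e2 : (w * n) ^ 2 * (s ^ 2 + (n / s) ^ 2) ≤ (w * (n * (s + n / s))) ^ 2 := by
    have : (w * (n * (s + n / s))) ^ 2 = (w * n) ^ 2 * (s + n / s) ^ 2 := by ring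
    rw [this]
    apply mul_le_mul_of_nonneg_left _ (sq_nonneg _)
    have : 0 ≤ n / s := by positivity
    nlinarith [mul_nonneg hs0.le this]
  have e3 : 0 ≤ w * (n * (s + n / s)) := by positivity
  nlinarith [mul_nonneg hz0 e3]

lemma Bd_nonneg (N D d g : ℝ) (hd : 0 ≤ d) (hg : 0 ≤ g) : 0 ≤ Bd N D d g := by
  unfold Bd
  have := Real.rpow_nonneg hd (1 / 4 : ℝ)
  have := Real.rpow_nonneg hg (1 / 4 : ℝ)
  positivity

lemma Bd_mono (N D D' d g g' : ℝ) (hN : 0 ≤ N) (hd : 0 ≤ d) (hg : 0 ≤ g) (hD : D ≤ D')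
    (hgg : g ≤ g') : Bd N D d g ≤ Bd N D' d g' := by
  unfold Bd
  apply add_le_add
  · apply Real.sqrt_le_sqrt
    exact mul_le_mul_of_nonneg_left hD hN
  · apply mul_le_mul_of_nonneg_right
    · exact Real.rpow_le_rpow hg hgg (by norm_num)
    · have := Real.rpow_nonneg hd (1 / 4 : ℝ)
      positivity

lemma deg (p : ℕ) (hp : p.Prime) (Q0 V V' : ℕ) (k k' : ℤ) (A : ZMod p) (hA : A ≠ 0)
    (hpQ : p ∣ Q0) (hsq : Squarefree (Q0 * V)) (hsq' : Squarefree (Q0 * V'))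
    (h : (k : ZMod p) * ((Q0 * V / p : ℕ) : ZMod p)⁻¹ * A -
      (k' : ZMod p) * ((Q0 * V' / p : ℕ) : ZMod p)⁻¹ * A = 0) :
    (p : ℤ) ∣ k * (V' : ℤ) - k' * (V : ℤ) := by
  have : Fact p.Prime := ⟨hp⟩
  obtain ⟨Q1, rfl⟩ := hpQ
  have hp0 : 0 < p := hp.pos
  have e1 : p * Q1 * V / p = Q1 * V := by
    rw [mul_assoc]; exact Nat.mul_div_cancel_left _ hp0
  have e2 : p * Q1 * V' / p = Q1 * V' := by
    rw [mul_assoc]; exact Nat.mul_div_cancel_left _ hp0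
  have hnd : ∀ U : ℕ, Squarefree (p * Q1 * U) → ((Q1 * U : ℕ) : ZMod p) ≠ 0 := by
    intro U hU h0
    rw [ZMod.natCast_eq_zero_iff] at h0
    have : p * p ∣ p * Q1 * U := by
      rw [mul_assoc]; exact Nat.mul_dvd_mul_left p h0
    have := hU p this
    exact hp.one_lt.ne' (Nat.isUnit_iff.mp this)
  have n1 := hnd V hsq
  have n2 := hnd V' hsq'
  rw [e1, e2] at h
  push_cast at h n1 n2
  have hQ1 : (Q1 : ZMod p) ≠ 0 := fun hh => n1 (by rw [hh]; ring)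
  have hV : (V : ZMod p) ≠ 0 := fun hh => n1 (by rw [hh]; ring)
  have hV' : (V' : ZMod p) ≠ 0 := fun hh => n2 (by rw [hh]; ring)
  rw [← ZMod.intCast_zmod_eq_zero_iff_dvd]
  push_cast
  rw [← sub_mul] at h
  have h2 := (mul_eq_zero.mp h).resolve_right hA
  field_simp at h2
  linear_combination h2

end Pool.Agent.Y535.ZP
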