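import Mathlib
import Pool.Agent.Y826.Z.Defs2

/-! Bounds for the Fourier coefficients of an interval. -/

open Finset Filter

namespace Pool.Agent.Y535.ZP

open Pool.Agent.Y826.Z

lemma nexp (x : ℝ) : ‖Complex.exp (2 * Real.pi * Complex.I * (x : ℂ))‖ = 1 := by
  have h := Complex.norm_exp_ofReal_mul_I (2 * Real.pi * x)
  have h2 : (2 * (Real.pi : ℂ) * Complex.I * (x : ℂ)) = ((2 * Real.pi * x : ℝ) : ℂ) * Complex.I := by
    push_cast; ring
  rw [h2]; exact h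

lemma Ih_triv (M q : ℕ) (k : ℤ) : ‖Ih M q k‖ ≤ M / q := by
  unfold Ih
  rw [norm_mul]
  have h1 : ‖(1 / (q : ℂ))‖ = 1 / (q : ℝ) := by simp
  have h2 : ‖∑ m ∈ Ioc M (2 * M), Complex.exp (2 * Real.pi * Complex.I *
      ((-(k : ℝ) * m / q : ℝ) : ℂ))‖ ≤ M := by
    refine (norm_sum_le _ _).trans ?_
    have h3 : ∀ m ∈ Ioc M (2 * M), ‖Complex.exp (2 * Real.pi * Complex.I *
        ((-(k : ℝ) * m / q : ℝ) : ℂ))‖ = 1 := by
      intro m _
      exact nexp _
    rw [sum_congr rfl h3]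
    simp only [sum_const, Nat.card_Ioc, nsmul_eq_mul, mul_one]
    have : 2 * M - M = M := by omega
    rw [this]
  rw [h1]
  calc 1 / (q : ℝ) * _ ≤ 1 / (q : ℝ) * M := by
        apply mul_le_mul_of_nonneg_left h2; positivity
    _ = M / q := by ring

lemma geo_bd (z : ℂ) (hz : ‖z‖ = 1) (M : ℕ) : ‖z - 1‖ * ‖∑ m ∈ Ioc M (2 * M), z ^ m‖ ≤ 2 := by
  rw [← norm_mul]
  have h : ∀ n, (z - 1) * ∑ m ∈ Ioc M (M + n), z ^ m = z ^ (M + n + 1) - z ^ (M + 1) := by
    intro n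
    induction n with
    | zero => simp
    | succ n ih =>
      have e : Ioc M (M + (n + 1)) = insert (M + n + 1) (Ioc M (M + n)) := by
        ext x; simp only [mem_Ioc, mem_insert]; omega
      rw [e, sum_insert (by simp), mul_add, ih]
      ring
  have h2 := h M
  rw [show 2 * M = M + M by ring, h2]
  refine (norm_sub_le _ _).trans ?_
  rw [norm_pow, norm_pow, hz]
  norm_num

lemma Ih_dec (M q : ℕ) (k : ℤ) (hk : k ∈ freq q) : ‖Ih M q k‖ ≤ 1 / |(k : ℝ)| := by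
  unfold freq at hk
  rw [mem_filter, mem_Ioc] at hk
  obtain ⟨⟨h1, h2⟩, h3, h4, h5⟩ := hk
  have hq : 0 < q := by
    rcases Nat.eq_zero_or_pos q with h | h
    · subst h; simp at h1 h2; omega
    · exact h
  have hqr : (0 : ℝ) < q := by exact_mod_cast hq
  have hkpos : 0 < |(k : ℝ)| := by
    rw [abs_pos]; exact_mod_cast h3
  have hk2 : 2 * |(k : ℝ)| ≤ q := by
    have a1 : (2 : ℝ) * k ≤ q := by exact_mod_cast h5
    have a2 : -(q : ℝ) ≤ 2 * k := by exact_mod_cast h4.le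
    have := abs_le.mpr ⟨a2, a1⟩
    rwa [abs_mul, abs_of_pos (by norm_num : (0 : ℝ) < 2)] at this
  set z : ℂ := Complex.exp (Complex.I * ((2 * Real.pi * (-(k : ℝ) / q) : ℝ) : ℂ)) with hz
  have hz1 : ‖z‖ = 1 := by
    rw [hz]
    exact Complex.norm_exp_I_mul_ofReal _
  have hsum : ∑ m ∈ Ioc M (2 * M), Complex.exp (2 * Real.pi * Complex.I *
      ((-(k : ℝ) * m / q : ℝ) : ℂ)) = ∑ m ∈ Ioc M (2 * M), z ^ m := by
    apply sum_congr rfl
    intro m _
    rw [hz, ← Complex.exp_nat_mul]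
    congr 1
    push_cast
    ring
  have hz2 : 4 * |(k : ℝ)| / q ≤ ‖z - 1‖ := by
    rw [hz, Complex.norm_exp_I_mul_ofReal_sub_one, Real.norm_eq_abs, abs_mul,
      abs_of_pos (by norm_num : (0 : ℝ) < 2)]
    have e1 : 2 * Real.pi * (-(k : ℝ) / q) / 2 = -(Real.pi * k / q) := by ring
    rw [e1, Real.sin_neg, abs_neg]
    have e2 : |Real.sin (Real.pi * k / q)| = |Real.sin (Real.pi * |(k : ℝ)| / q)| := by
      rcases abs_cases (k : ℝ) with ⟨h, _⟩ | ⟨h, _⟩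
      · rw [h]
      · rw [h]
        have : Real.pi * -(k : ℝ) / q = -(Real.pi * k / q) := by ring
        rw [this, Real.sin_neg, abs_neg]
    rw [e2]
    have e3 : 2 / Real.pi * (Real.pi * |(k : ℝ)| / q) ≤ Real.sin (Real.pi * |(k : ℝ)| / q) := by
      apply Real.mul_le_sin
      · positivity
      · rw [div_le_div_iff₀ hqr (by norm_num)]
        nlinarith [Real.pi_pos]
    have e4 : 2 / Real.pi * (Real.pi * |(k : ℝ)| / q) = 2 * |(k : ℝ)| / q := by
      field_simp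
    rw [e4] at e3
    have e5 := le_abs_self (Real.sin (Real.pi * |(k : ℝ)| / q))
    have : 4 * |(k : ℝ)| / q = 2 * (2 * |(k : ℝ)| / q) := by ring
    rw [this]
    linarith
  unfold Ih
  rw [norm_mul, hsum]
  have hg := geo_bd z hz1 M
  set S := ‖∑ m ∈ Ioc M (2 * M), z ^ m‖ with hS
  have hS0 : 0 ≤ S := norm_nonneg _
  have h6 : 4 * |(k : ℝ)| / q * S ≤ 2 := (mul_le_mul_of_nonneg_right hz2 hS0).trans hg
  have h7 : ‖(1 / (q : ℂ))‖ = 1 / (q : ℝ) := by simp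
  rw [h7, le_div_iff₀ hkpos]
  have h8 : 4 * |(k : ℝ)| / q * S = 4 * (1 / (q : ℝ) * S * |(k : ℝ)|) := by ring
  rw [h8] at h6
  nlinarith [mul_nonneg (mul_nonneg (one_div_nonneg.mpr hqr.le) hS0) hkpos.le]

end Pool.Agent.Y535.ZP
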