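import Mathlib
import Pool.Agent.Y826.Z.Defs2

/-! Products of local phases. -/

open Finset Filter

namespace Pool.Agent.Y535.ZP

open Pool.Agent.Y826.Z

lemma ec_eq (p : ℕ) [NeZero p] (x : ZMod p) : ec p x = ZMod.stdAddChar x := by
  rw [ec, ZMod.stdAddChar_apply, ZMod.toCircle_apply]
  congr 1
  push_cast
  ring

lemma ec_norm (p : ℕ) (x : ZMod p) : ‖ec p x‖ = 1 := by
  have h := Complex.norm_exp_ofReal_mul_I (2 * Real.pi * ((x.val : ℝ) / (p : ℝ)))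
  have h2 : (2 * (Real.pi : ℂ) * Complex.I * (((x.val : ℝ) / (p : ℝ) : ℝ) : ℂ)) =
      ((2 * Real.pi * ((x.val : ℝ) / (p : ℝ)) : ℝ) : ℂ) * Complex.I := by
    push_cast; ring
  rw [ec, h2]; exact h

lemma ec_sub (p : ℕ) [NeZero p] (x y : ZMod p) :
    ec p x * (starRingEnd ℂ) (ec p y) = ec p (x - y) := by
  rw [ec_eq, ec_eq, ec_eq, sub_eq_add_neg, AddChar.map_add_eq_mul, AddChar.map_neg_eq_conj]

lemma lp_norm (p : ℕ) (A c : ZMod p) (n : ℤ) : ‖Pool.Agent.Y826.Z.lp p A c n‖ ≤ 1 := by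
  unfold Pool.Agent.Y826.Z.lp
  split_ifs
  · simp
  · rw [ec_norm]

lemma lp_sub (p : ℕ) [NeZero p] (A A' c : ZMod p) (n : ℤ) :
    Pool.Agent.Y826.Z.lp p A c n * (starRingEnd ℂ) (Pool.Agent.Y826.Z.lp p A' c n) =
      Pool.Agent.Y826.Z.lp p (A - A') c n := by
  unfold Pool.Agent.Y826.Z.lp
  split_ifs
  · simp
  · rw [ec_sub]
    congr 1
    ring

lemma PH_norm (P : Finset ℕ) (A c : (p : ℕ) → ZMod p) (n : ℤ) : ‖PH P A c n‖ ≤ 1 := by
  unfold PH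
  rw [norm_prod]
  apply prod_le_one
  · intro i _; exact norm_nonneg _
  · intro i _; exact lp_norm _ _ _ _

lemma PH_sub (P : Finset ℕ) (hP : ∀ p ∈ P, p.Prime) (A A' c : (p : ℕ) → ZMod p) (n : ℤ) :
    PH P A c n * (starRingEnd ℂ) (PH P A' c n) = PH P (fun p => A p - A' p) c n := by
  unfold PH
  rw [map_prod, ← prod_mul_distrib]
  apply prod_congr rfl
  intro p hp
  have : NeZero p := ⟨(hP p hp).ne_zero⟩
  exact lp_sub p _ _ _ _

end Pool.Agent.Y535.ZP
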