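import Mathlib
import Pool.Agent.Y826.Z.Defs2
import Pool.Agent.Y535.ZP.IhB
import Pool.Agent.Y535.ZP.Phs
import Pool.Agent.Y535.ZP.CS

/-! The dyadic decomposition of the frequencies and the bound for one pair of indices. -/

open Finset Filter

namespace Pool.Agent.Y535.ZP

open Pool.Agent.Y826.Z

/-- frequencies of size `2 ^ i` -/
noncomputable def Kf (i : ℕ) : Finset ℤ :=
  (Ioo (-(2 : ℤ) ^ (i + 1)) ((2 : ℤ) ^ (i + 1))).filter (fun k => (2 : ℤ) ^ i ≤ |k|)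

lemma mem_Kf (i : ℕ) (k : ℤ) : k ∈ Kf i ↔ 2 ^ i ≤ k.natAbs ∧ k.natAbs < 2 ^ (i + 1) := by
  unfold Kf
  rw [mem_filter, mem_Ioo, ← abs_lt, Int.abs_eq_natAbs]
  constructor
  · rintro ⟨h1, h2⟩
    exact ⟨by exact_mod_cast h2, by exact_mod_cast h1⟩
  · rintro ⟨h1, h2⟩
    exact ⟨by exact_mod_cast h2, by exact_mod_cast h1⟩

lemma mem_Kf' (i : ℕ) (k : ℤ) (hk : k ≠ 0) : k ∈ Kf i ↔ Nat.log 2 k.natAbs = i := by
  rw [mem_Kf, Nat.log_eq_iff]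
  right
  exact ⟨by norm_num, Int.natAbs_ne_zero.mpr hk⟩

lemma Ix_eq {K : ℕ} (i : ℕ) (SV : Finset (Fin K → ℕ)) : Ix i SV = Kf i ×ˢ (SV ×ˢ SV) := rfl

/-- splitting a sum over nonzero frequencies -/
lemma dy (q L : ℕ) (hL : ∀ k ∈ freq q, Nat.log 2 k.natAbs < L) (f : ℤ → ℂ) :
    ∑ k ∈ freq q, f k = ∑ i ∈ range L, ∑ k ∈ Kf i, if k ∈ freq q then f k else 0 := by
  classical
  have hne : ∀ k ∈ freq q, k ≠ 0 := by
    intro k hk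
    unfold freq at hk
    rw [mem_filter] at hk
    exact hk.2.1
  rw [← sum_fiberwise_of_maps_to (s := freq q) (t := range L) (g := fun k => Nat.log 2 k.natAbs)
    (fun k hk => mem_range.mpr (hL k hk))]
  apply sum_congr rfl
  intro i _
  rw [← sum_filter]
  apply sum_congr _ (fun _ _ => rfl)
  ext k
  simp only [mem_filter]
  constructor
  · rintro ⟨h1, h2⟩
    exact ⟨(mem_Kf' i k (hne k h1)).mpr h2, h1⟩
  · rintro ⟨h1, h2⟩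
    exact ⟨h2, (mem_Kf' i k (hne k h2)).mp h1⟩

lemma logb (X : ℝ) (q : ℕ) (hq : (q : ℝ) ≤ X) (k : ℤ) (hk : k ∈ freq q) :
    Nat.log 2 k.natAbs < Nat.log 2 ⌊X⌋₊ + 2 := by
  unfold freq at hk
  rw [mem_filter, mem_Ioc] at hk
  obtain ⟨⟨h1, h2⟩, h3, h4, h5⟩ := hk
  have h6 : k.natAbs ≤ q := by omega
  have h7 : q ≤ ⌊X⌋₊ := Nat.le_floor hq
  have := Nat.log_mono_right (b := 2) (h6.trans h7)
  omega

/-- sum over an interval of naturals as a sum over an interval of integers -/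
lemma toInt (N : ℕ) (f : ℤ → ℂ) :
    ∑ n ∈ Ioc N (2 * N), f (n : ℤ) = ∑ n ∈ Ico ((N : ℤ) + 1) ((N : ℤ) + 1 + N), f n := by
  apply sum_bij (fun (n : ℕ) _ => (n : ℤ))
  · intro n hn
    rw [mem_Ioc] at hn
    rw [mem_Ico]
    omega
  · intro a _ b _ h
    exact_mod_cast h
  · intro n hn
    rw [mem_Ico] at hn
    refine ⟨n.toNat, ?_, ?_⟩
    · rw [mem_Ioc]; omega
    · omega
  · intro n _; rfl

/-- one pair of indices with nonzero determinant -/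
lemma pair {ε C : ℝ} (hε : 0 < ε) (hC : 1 ≤ C) {K : ℕ}
    (hV : ∀ (P : Finset ℕ), (∀ p ∈ P, p.Prime) →
      ∀ (A c : (p : ℕ) → ZMod p) (a : ℤ) (N d : ℕ), 1 ≤ d → d ≤ N → (∀ p ∈ P, ¬ p ∣ d) →
      ∀ Z : ℤ → ℂ, (∀ n, Z (n + d) = Z n) → (∀ n, ‖Z n‖ ≤ 1) →
      ‖∑ n ∈ Ico a (a + N), Z n * PH P A c n‖ ^ 2 ≤
        C * ((N : ℝ) * ((∏ p ∈ P, p : ℕ) : ℝ)) ^ ε *
          ((N : ℝ) * d + N * Real.sqrt ((∏ p ∈ P.filter (fun p => A p = 0), p : ℕ) : ℝ) *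
            (Real.sqrt ((∏ p ∈ P, p : ℕ) : ℝ) + N / Real.sqrt ((∏ p ∈ P, p : ℕ) : ℝ))))
    (T0 Pi N : ℕ) (X V1 : ℝ) (A : (p : ℕ) → ZMod p) (c : (p : ℕ) → ZMod p)
    (Z : (Fin K → ℕ) → (Fin K → ℕ) → ℤ → ℤ → ℂ)
    (hX : 1 ≤ X) (hN : 1 ≤ N) (hNX : (N : ℝ) ≤ X)
    (hA : ∀ (p : ℕ), p.Prime → p ∣ Pi → A p ≠ 0)
    (hZ1 : ∀ v1 v2 k x, ‖Z v1 v2 k x‖ ≤ 1)
    (hZ2 : ∀ v1 v2 k x, Z v1 v2 k (x + ((T0 * (Pr v1 * Pr v2) : ℕ) : ℤ)) = Z v1 v2 k x)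
    (hW : (T0 : ℝ) * V1 ^ 4 ≤ N)
    (x y : ℤ × (Fin K → ℕ) × (Fin K → ℕ))
    (hx1 : (Pr x.2.1 : ℝ) ≤ V1) (hx2 : (Pr x.2.2 : ℝ) ≤ V1)
    (hy1 : (Pr y.2.1 : ℝ) ≤ V1) (hy2 : (Pr y.2.2 : ℝ) ≤ V1)
    (hsx : Squarefree (T0 * Pi * (Pr x.2.1 * Pr x.2.2)))
    (hsy : Squarefree (T0 * Pi * (Pr y.2.1 * Pr y.2.2)))
    (hqx : ((T0 * Pi * (Pr x.2.1 * Pr x.2.2) : ℕ) : ℝ) ≤ X)
    (hD : Dt x y ≠ 0) :
    ‖∑ n ∈ Ioc N (2 * N), (Z x.2.1 x.2.2 x.1 (n : ℤ) * PH Pi.primeFactors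
        (fun p => (x.1 : ZMod p) * ((T0 * Pi * (Pr x.2.1 * Pr x.2.2) / p : ℕ) :
          ZMod p)⁻¹ * A p) c (n : ℤ)) *
        (starRingEnd ℂ) (Z y.2.1 y.2.2 y.1 (n : ℤ) * PH Pi.primeFactors
        (fun p => (y.1 : ZMod p) * ((T0 * Pi * (Pr y.2.1 * Pr y.2.2) / p : ℕ) :
          ZMod p)⁻¹ * A p) c (n : ℤ))‖ ≤
      Real.sqrt C * X ^ ε * Bd N ((T0 : ℝ) * V1 ^ 4) (Pi : ℝ)
        (Int.gcd (Dt x y) (Pi : ℤ)) := by
  obtain ⟨k, v1, v2⟩ := x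
  obtain ⟨k', w1, w2⟩ := y
  simp only at hx1 hx2 hy1 hy2 hsx hsy hqx ⊢
  set PP := Pi.primeFactors with hPP
  have hPdvd : Pi ∣ T0 * Pi * (Pr v1 * Pr v2) := ⟨T0 * (Pr v1 * Pr v2), by ring⟩
  have hPsf : Squarefree Pi := hsx.squarefree_of_dvd hPdvd
  have hPpos : 0 < Pi := Nat.pos_of_ne_zero hPsf.ne_zero
  have hprod : ∏ p ∈ PP, p = Pi := Nat.prod_primeFactors_of_squarefree hPsf
  have hPP' : ∀ p ∈ PP, p.Prime := fun p hp => Nat.prime_of_mem_primeFactors hp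
  have hqpos : 0 < T0 * Pi * (Pr v1 * Pr v2) := Nat.pos_of_ne_zero hsx.ne_zero
  have hqpos' : 0 < T0 * Pi * (Pr w1 * Pr w2) := Nat.pos_of_ne_zero hsy.ne_zero
  have hD1pos : 0 < T0 * (Pr v1 * Pr v2) := by
    apply Nat.pos_of_ne_zero
    intro h0
    have : T0 * Pi * (Pr v1 * Pr v2) = (T0 * (Pr v1 * Pr v2)) * Pi := by ring
    rw [this, h0] at hqpos; omega
  have hw12 : 0 < Pr w1 * Pr w2 := by
    apply Nat.pos_of_ne_zero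
    intro h0
    rw [h0] at hqpos'; omega
  set d := T0 * (Pr v1 * Pr v2) * (Pr w1 * Pr w2) with hd
  have hdpos : 0 < d := Nat.mul_pos hD1pos hw12
  have hV10 : 0 ≤ V1 := (Nat.cast_nonneg _).trans hx1
  have hdle : (d : ℝ) ≤ (T0 : ℝ) * V1 ^ 4 := by
    rw [hd]; push_cast
    have e1 : (Pr v1 : ℝ) * Pr v2 * (Pr w1 * Pr w2) ≤ V1 * V1 * (V1 * V1) := by
      have a1 : (Pr v1 : ℝ) * Pr v2 ≤ V1 * V1 :=
        mul_le_mul hx1 hx2 (Nat.cast_nonneg _) hV10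
      have a2 : (Pr w1 : ℝ) * Pr w2 ≤ V1 * V1 :=
        mul_le_mul hy1 hy2 (Nat.cast_nonneg _) hV10
      exact mul_le_mul a1 a2 (by positivity) (by positivity)
    calc (T0 : ℝ) * (Pr v1 * Pr v2) * (Pr w1 * Pr w2) =
        (T0 : ℝ) * ((Pr v1 : ℝ) * Pr v2 * (Pr w1 * Pr w2)) := by ring
      _ ≤ (T0 : ℝ) * (V1 * V1 * (V1 * V1)) := by
          apply mul_le_mul_of_nonneg_left e1; positivity
      _ = _ := by ring
  have hdN : d ≤ N := by exact_mod_cast hdle.trans hW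
  have hcop : ∀ p ∈ PP, ¬ p ∣ d := by
    intro p hp hpd
    have hpp := hPP' p hp
    have hpPi : p ∣ Pi := Nat.dvd_of_mem_primeFactors hp
    rcases (Nat.Prime.dvd_mul hpp).mp hpd with h1 | h1
    · have : p * p ∣ T0 * Pi * (Pr v1 * Pr v2) := by
        have e : T0 * Pi * (Pr v1 * Pr v2) = Pi * (T0 * (Pr v1 * Pr v2)) := by ring
        rw [e]; exact Nat.mul_dvd_mul hpPi h1
      exact hpp.one_lt.ne' (Nat.isUnit_iff.mp (hsx p this))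
    · have : p * p ∣ T0 * Pi * (Pr w1 * Pr w2) := by
        have e : T0 * Pi * (Pr w1 * Pr w2) = Pi * (Pr w1 * Pr w2) * T0 := by ring
        rw [e]; exact (Nat.mul_dvd_mul hpPi h1).mul_right _
      exact hpp.one_lt.ne' (Nat.isUnit_iff.mp (hsy p this))
  -- the combined function
  set Zf : ℤ → ℂ := fun n => Z v1 v2 k n * (starRingEnd ℂ) (Z w1 w2 k' n) with hZf
  have hZper : ∀ n, Zf (n + d) = Zf n := by
    intro n
    have p1 : Function.Periodic (Z v1 v2 k) ((T0 * (Pr v1 * Pr v2) : ℕ) : ℤ) := hZ2 v1 v2 k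
    have p2 : Function.Periodic (Z w1 w2 k') ((T0 * (Pr w1 * Pr w2) : ℕ) : ℤ) := hZ2 w1 w2 k'
    have q1 := p1.nat_mul (Pr w1 * Pr w2)
    have q2 := p2.nat_mul (Pr v1 * Pr v2)
    have r1 : ((d : ℕ) : ℤ) = ((Pr w1 * Pr w2 : ℕ) : ℤ) * ((T0 * (Pr v1 * Pr v2) : ℕ) : ℤ) := by
      rw [hd]; push_cast; ring
    have r2 : ((d : ℕ) : ℤ) = ((Pr v1 * Pr v2 : ℕ) : ℤ) * ((T0 * (Pr w1 * Pr w2) : ℕ) : ℤ) := by
      rw [hd]; push_cast; ring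
    simp only [hZf]
    have s1 : Z v1 v2 k (n + (d : ℤ)) = Z v1 v2 k n := by rw [r1]; exact q1 n
    have s2 : Z w1 w2 k' (n + (d : ℤ)) = Z w1 w2 k' n := by rw [r2]; exact q2 n
    rw [s1, s2]
  have hZn : ∀ n, ‖Zf n‖ ≤ 1 := by
    intro n
    simp only [hZf]
    rw [norm_mul, RCLike.norm_conj]
    exact mul_le_one₀ (hZ1 _ _ _ _) (norm_nonneg _) (hZ1 _ _ _ _)
  set Ax : (p : ℕ) → ZMod p := fun p => (k : ZMod p) *
    ((T0 * Pi * (Pr v1 * Pr v2) / p : ℕ) : ZMod p)⁻¹ * A p with hAx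
  set Ay : (p : ℕ) → ZMod p := fun p => (k' : ZMod p) *
    ((T0 * Pi * (Pr w1 * Pr w2) / p : ℕ) : ZMod p)⁻¹ * A p with hAy
  have hsum : ∑ n ∈ Ioc N (2 * N), (Z v1 v2 k (n : ℤ) * PH PP Ax c (n : ℤ)) *
      (starRingEnd ℂ) (Z w1 w2 k' (n : ℤ) * PH PP Ay c (n : ℤ)) =
      ∑ n ∈ Ico ((N : ℤ) + 1) ((N : ℤ) + 1 + N), Zf n * PH PP (fun p => Ax p - Ay p) c n := by
    rw [← toInt N (fun n => Zf n * PH PP (fun p => Ax p - Ay p) c n)]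
    apply sum_congr rfl
    intro n _
    rw [← PH_sub PP hPP' Ax Ay c, map_mul]
    simp only [hZf]
    ring
  rw [hsum]
  have hv := hV PP hPP' (fun p => Ax p - Ay p) c ((N : ℤ) + 1) N d hdpos hdN hcop Zf hZper hZn
  rw [hprod] at hv
  -- the degenerate primes
  set G := ∏ p ∈ PP.filter (fun p => Ax p - Ay p = 0), p with hG
  set gg := Int.gcd (Dt (k, v1, v2) (k', w1, w2)) (Pi : ℤ) with hgg
  have hggpos : 0 < gg := Int.gcd_pos_of_ne_zero_left _ hD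
  have hGdvd : G ∣ gg := by
    rw [hG]
    apply Finset.prod_primes_dvd
    · intro p hp
      exact (hPP' p (mem_filter.mp hp).1).prime
    · intro p hp
      rw [mem_filter] at hp
      have hpp := hPP' p hp.1
      have hpPi : p ∣ Pi := Nat.dvd_of_mem_primeFactors hp.1
      have h0 := hp.2
      rw [hgg]
      have hdt : (p : ℤ) ∣ Dt (k, v1, v2) (k', w1, w2) := by
        unfold Dt
        exact deg p hpp (T0 * Pi) (Pr v1 * Pr v2) (Pr w1 * Pr w2) k k' (A p)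
          (hA p hpp hpPi) (hpPi.mul_left _) hsx hsy h0
      have := Int.dvd_coe_gcd hdt (Int.natCast_dvd_natCast.mpr hpPi)
      exact_mod_cast this
  have hGle : (G : ℝ) ≤ gg := by exact_mod_cast Nat.le_of_dvd hggpos hGdvd
  have hN0 : (0 : ℝ) ≤ N := Nat.cast_nonneg _
  have hPr0 : (0 : ℝ) < Pi := by exact_mod_cast hPpos
  have hPX : (Pi : ℝ) ≤ X := by
    refine le_trans ?_ hqx
    exact_mod_cast Nat.le_of_dvd hqpos hPdvd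
  have hX0 : 0 < X := by linarith
  have hpow : ((N : ℝ) * Pi) ^ ε ≤ (X ^ ε) ^ 2 := by
    calc ((N : ℝ) * Pi) ^ ε ≤ (X * X) ^ ε := by
          apply Real.rpow_le_rpow (by positivity) _ hε.le
          exact mul_le_mul hNX hPX hPr0.le hX0.le
      _ = (X ^ ε) ^ 2 := by rw [Real.mul_rpow hX0.le hX0.le]; ring
  have hB := Bd_sq N d Pi G hN0 (Nat.cast_nonneg _) hPr0 (Nat.cast_nonneg _)
  have hB2 : Bd N d Pi G ≤ Bd N ((T0 : ℝ) * V1 ^ 4) Pi gg :=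
    Bd_mono _ _ _ _ _ _ hN0 hPr0.le (Nat.cast_nonneg _) hdle hGle
  have hB0 : 0 ≤ Bd N d Pi G := Bd_nonneg _ _ _ _ hPr0.le (Nat.cast_nonneg _)
  set BB := Bd N ((T0 : ℝ) * V1 ^ 4) Pi gg with hBB
  have hBB0 : 0 ≤ BB := hB0.trans hB2
  have hXe : 0 ≤ X ^ ε := Real.rpow_nonneg hX0.le _
  have hfin : ‖∑ n ∈ Ico ((N : ℤ) + 1) ((N : ℤ) + 1 + N), Zf n *
      PH PP (fun p => Ax p - Ay p) c n‖ ^ 2 ≤ (Real.sqrt C * X ^ ε * BB) ^ 2 := by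
    have e1 : (Real.sqrt C * X ^ ε * BB) ^ 2 = C * (X ^ ε) ^ 2 * BB ^ 2 := by
      rw [mul_pow, mul_pow, Real.sq_sqrt (by linarith)]
    rw [e1]
    refine hv.trans ?_
    apply mul_le_mul
    · exact mul_le_mul_of_nonneg_left hpow (by linarith)
    · exact hB.trans (pow_le_pow_left₀ hB0 hB2 2)
    · positivity
    · positivity
  exact (pow_le_pow_iff_left₀ (norm_nonneg _) (by positivity) (by norm_num)).mp hfin

end Pool.Agent.Y535.ZP
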